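import Pool.Agent.W601.SQ.Stm

/-! Part CHAR of project SQ: continuous characters of subgroups of powers of the circle. -/

set_option autoImplicit false
open scoped Classical Cardinal
open Filter Topology

namespace Pool.Agent.W638.SQ

open Pool.Agent.W601.SQ

noncomputable section

theorem ch_add {ι : Type} (s s' : ι →₀ ℤ) (x : ι → Circle) : ch (s + s') x = ch s x * ch s' x := by
  unfold ch
  exact Finsupp.prod_add_index' (fun i => zpow_zero _) (fun i a b => zpow_add _ a b)

theorem ch_zero {ι : Type} (x : ι → Circle) : ch (0 : ι →₀ ℤ) x = 1 := by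
  unfold ch
  exact Finsupp.prod_zero_index

theorem ch_neg {ι : Type} (s : ι →₀ ℤ) (x : ι → Circle) : ch (-s) x = (ch s x)⁻¹ := by
  rw [eq_inv_iff_mul_eq_one, ← ch_add, neg_add_cancel, ch_zero]

theorem ch_one {ι : Type} (s : ι →₀ ℤ) : ch s (fun _ => 1) = 1 := by
  unfold ch
  simp

theorem ch_option {ι : Type} (s : Option ι →₀ ℤ) (y : Option ι → Circle) :
    ch s y = y none ^ (s none) * ch s.some (fun i => y (some i)) := by
  unfold ch
  exact Finsupp.prod_option_index s (fun o a => y o ^ a) (fun o => zpow_zero _)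
    (fun o a b => zpow_add _ a b)

/-- a nontrivial root of unity -/
theorem exists_root (d : ℤ) (hd : ¬ IsUnit d) : ∃ z : Circle, z ≠ 1 ∧ z ^ d = 1 := by
  by_cases h0 : d = 0
  · subst h0
    refine ⟨Circle.exp Real.pi, ?_, zpow_zero _⟩
    intro h
    obtain ⟨n, hn⟩ := Circle.exp_eq_one.mp h
    have h1 : Real.pi * (1 - 2 * (n : ℝ)) = 0 := by linarith
    rcases mul_eq_zero.mp h1 with h2 | h2
    · exact Real.pi_ne_zero h2
    · have h3 : (1 : ℝ) = ((2 * n : ℤ) : ℝ) := by push_cast; linarith
      have h4 : (1 : ℤ) = 2 * n := by exact_mod_cast h3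
      omega
  · refine ⟨Circle.exp (2 * Real.pi / d), ?_, ?_⟩
    · intro h
      obtain ⟨n, hn⟩ := Circle.exp_eq_one.mp h
      have hd' : (d : ℝ) ≠ 0 := by exact_mod_cast h0
      field_simp at hn
      have h4 : n * d = 1 := by
        have h5 : ((n * d : ℤ) : ℝ) = ((1 : ℤ) : ℝ) := by
          push_cast
          linarith
        exact_mod_cast h5
      exact hd (IsUnit.of_mul_eq_one n (by rw [mul_comm]; exact h4))
    · have hd' : (d : ℝ) ≠ 0 := by exact_mod_cast h0
      have h1 : Circle.exp (2 * Real.pi / d) ^ d = Circle.exp (d * (2 * Real.pi / d)) := by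
        have := (map_zsmul Circle.expHom d (2 * Real.pi / d)).symm
        have h2 : (Circle.expHom (2 * Real.pi / d)) = Additive.ofMul (Circle.exp (2 * Real.pi / d)) := rfl
        rw [h2] at this
        have h3 := congrArg Additive.toMul this
        rw [zsmul_eq_mul] at h3
        exact h3
      rw [h1, mul_div_cancel₀ _ hd']
      exact Circle.exp_two_pi

theorem charr : S_ANN → S_CHAR := by
  intro hA ι D χ hχ
  let Φ : ↥D →* (Option ι → Circle) :=
    { toFun := fun x o => o.elim (χ x) (fun i => (x : ι → Circle) i)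
      map_one' := by
        funext o
        cases o
        · exact map_one χ
        · rfl
      map_mul' := by
        intro x y
        funext o
        cases o
        · exact map_mul χ x y
        · rfl }
  have hchΦ : ∀ (s : Option ι →₀ ℤ) (x : ↥D), ch s (Φ x) = (χ x) ^ (s none) *
      ch s.some (x : ι → Circle) := fun s x => ch_option s (Φ x)
  have key : ∀ z : Circle, z ≠ 1 → ∃ s : Option ι →₀ ℤ, (∀ x : ↥D, ch s (Φ x) = 1) ∧
      z ^ (s none) ≠ 1 := by
    intro z hz
    have hg : (fun o : Option ι => o.elim z (fun _ => (1 : Circle))) ∉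
        closure ((Φ.range : Subgroup (Option ι → Circle)) : Set (Option ι → Circle)) := by
      intro hcl
      have hpos : 0 < dist z 1 / 2 := half_pos (dist_pos.mpr hz)
      have hopen : IsOpen {x : ↥D | dist (χ x) 1 < dist z 1 / 2} :=
        isOpen_lt (hχ.dist continuous_const) continuous_const
      obtain ⟨U, hU, hUe⟩ := isOpen_induced_iff.mp hopen
      have h1U : (fun _ : ι => (1 : Circle)) ∈ U := by
        have : (1 : ↥D) ∈ {x : ↥D | dist (χ x) 1 < dist z 1 / 2} := by
          show dist (χ 1) 1 < dist z 1 / 2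
          rw [map_one, dist_self]
          exact hpos
        rw [← hUe] at this
        exact this
      have hc1 : Continuous (fun w : Option ι → Circle => (fun i : ι => w (some i))) :=
        continuous_pi (fun i => continuous_apply (some i))
      have hc2 : Continuous (fun w : Option ι → Circle => dist (w none) z) :=
        (continuous_apply none).dist continuous_const
      have hW : IsOpen ({w : Option ι → Circle | (fun i : ι => w (some i)) ∈ U} ∩
          {w | dist (w none) z < dist z 1 / 2}) :=
        (hU.preimage hc1).inter (isOpen_lt hc2 continuous_const)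
      have hgW : (fun o : Option ι => o.elim z (fun _ => (1 : Circle))) ∈
          ({w : Option ι → Circle | (fun i : ι => w (some i)) ∈ U} ∩
          {w | dist (w none) z < dist z 1 / 2}) := by
        refine ⟨h1U, ?_⟩
        show dist z z < dist z 1 / 2
        rw [dist_self]
        exact hpos
      obtain ⟨w, ⟨hw1, hw2⟩, x, hx⟩ := mem_closure_iff.mp hcl _ hW hgW
      subst hx
      have hxU : (x : ι → Circle) ∈ U := hw1
      have hx' : x ∈ {x : ↥D | dist (χ x) 1 < dist z 1 / 2} := by
        rw [← hUe]
        exact hxU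
      have h3 : dist (χ x) 1 < dist z 1 / 2 := hx'
      have h4 : dist (χ x) z < dist z 1 / 2 := hw2
      have h5 := dist_triangle_left z 1 (χ x)
      linarith
    obtain ⟨s, hs1, hs2⟩ := hA (Option ι) Φ.range _ hg
    refine ⟨s, fun x => hs1 (Φ x) ⟨x, rfl⟩, ?_⟩
    rw [ch_option] at hs2
    intro h
    apply hs2
    show z ^ (s none) * ch s.some (fun _ => 1) = 1
    rw [h, ch_one, one_mul]
  let N : AddSubgroup ℤ :=
    { carrier := {n | ∃ s : ι →₀ ℤ, ∀ x : ↥D, ch s (x : ι → Circle) * (χ x) ^ n = 1}
      zero_mem' := ⟨0, fun x => by rw [ch_zero, zpow_zero, one_mul]⟩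
      add_mem' := by
        rintro a b ⟨s, hs⟩ ⟨s', hs'⟩
        refine ⟨s + s', fun x => ?_⟩
        rw [ch_add, zpow_add]
        calc ch s (x : ι → Circle) * ch s' (x : ι → Circle) * (χ x ^ a * χ x ^ b)
            = (ch s (x : ι → Circle) * χ x ^ a) * (ch s' (x : ι → Circle) * χ x ^ b) := by
              rw [mul_mul_mul_comm]
          _ = 1 := by rw [hs x, hs' x, one_mul]
      neg_mem' := by
        rintro a ⟨s, hs⟩
        refine ⟨-s, fun x => ?_⟩
        rw [ch_neg, zpow_neg, ← mul_inv, hs x, inv_one] }
  have h1N : (1 : ℤ) ∈ N := by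
    obtain ⟨d, hd⟩ := Int.subgroup_cyclic N
    by_cases hu : IsUnit d
    · have hdN : d ∈ N := by
        rw [hd]
        exact AddSubgroup.subset_closure (Set.mem_singleton d)
      rcases Int.isUnit_iff.mp hu with h | h
      · rwa [h] at hdN
      · rw [h] at hdN
        have := N.neg_mem hdN
        simpa using this
    · exfalso
      obtain ⟨z, hz, hzd⟩ := exists_root d hu
      obtain ⟨s, hs1, hs2⟩ := key z hz
      have hsN : s none ∈ N := by
        refine ⟨s.some, fun x => ?_⟩
        have := hs1 x
        rw [hchΦ] at this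
        rw [mul_comm]
        exact this
      rw [hd] at hsN
      obtain ⟨k, hk⟩ := AddSubgroup.mem_closure_singleton.mp hsN
      apply hs2
      rw [← hk, smul_eq_mul, mul_comm, zpow_mul, hzd, one_zpow]
  obtain ⟨s, hs⟩ := h1N
  refine ⟨-s, fun x => ?_⟩
  have := hs x
  rw [zpow_one] at this
  rw [ch_neg]
  exact (inv_eq_of_mul_eq_one_right this).symm

end

end Pool.Agent.W638.SQ
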